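import Pool.Agent.Y111.DM.Sets

/-!
# Chudnovsky's inequality for finite sets of points of projective space

For every field `K`, every `n ≥ 1` and every nonempty finite set `Z` of `K`-rational points of the
projective space of dimension `n` over `K`, with ideal `I`, the Waldschmidt constant
`c = lim α(I^(k)) / k` exists, it is the greatest lower bound of the quotients `α(I^(k)) / k`, and
`c ≥ (α(I) + n - 1) / n`.
-/

set_option autoImplicit false

namespace Pool.Agent.Results.MP_3eef69_ag.Chudnovsky

open MvPolynomial Filter Topology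

/-- The homogeneous prime ideal of the point `p` of the projective space of dimension `n` over `K`
(a line through the origin of `K ^ (n + 1)`): the ideal of `K[x_0, …, x_n]` generated by all the
forms which vanish at `p`. -/
noncomputable def pointIdeal {K : Type*} [Field K] {n : ℕ}
    (p : Projectivization K (Fin (n + 1) → K)) : Ideal (MvPolynomial (Fin (n + 1)) K) :=
  Ideal.span {F | (∃ d : ℕ, F.IsHomogeneous d) ∧ eval p.rep F = 0}

/-- The ideal `I = I_Z` of the finite set of points `Z`: the intersection of the ideals of its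
points. -/
noncomputable def ideal {K : Type*} [Field K] {n : ℕ}
    (Z : Finset (Projectivization K (Fin (n + 1) → K))) : Ideal (MvPolynomial (Fin (n + 1)) K) :=
  ⨅ p ∈ Z, pointIdeal p

/-- The symbolic power `I^(k)` of the ideal of `Z`: the intersection of the `k`-th powers of the
ideals of its points. -/
noncomputable def symbolicPower {K : Type*} [Field K] {n : ℕ}
    (Z : Finset (Projectivization K (Fin (n + 1) → K))) (k : ℕ) :
    Ideal (MvPolynomial (Fin (n + 1)) K) :=
  ⨅ p ∈ Z, pointIdeal p ^ k

/-- `α(J)`: the least degree of a nonzero element of the ideal `J`. -/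
noncomputable def alpha {K : Type*} [Field K] {n : ℕ} (J : Ideal (MvPolynomial (Fin (n + 1)) K)) :
    ℕ :=
  sInf {d | ∃ F ∈ J, F ≠ 0 ∧ F.totalDegree = d}

/-- **Chudnovsky's inequality** for all nonempty finite sets of rational points of projective
spaces over all fields. -/
theorem result (K : Type*) [Field K] (n : ℕ) (hn : 1 ≤ n)
    (Z : Finset (Projectivization K (Fin (n + 1) → K))) (hZ : Z.Nonempty) :
    ∃ c : ℝ, Tendsto (fun k : ℕ => (alpha (symbolicPower Z k) : ℝ) / k) atTop (𝓝 c) ∧
      (∀ k : ℕ, 1 ≤ k → c ≤ (alpha (symbolicPower Z k) : ℝ) / k) ∧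
      ((alpha (ideal Z) : ℝ) + n - 1) / n ≤ c := by
  classical
  open Pool.Agent.H737R3 Pool.Agent.Y111.DM in
  have hsym : ∀ k, symbolicPower Z k =
      multIdeal (fun p => k * Set.indicator (Z : Set (PP K n)) 1 p) := by
    intro k
    have := symPow_eq (K := K) (N := n) Z k
    exact this
  have hne : Set.indicator (Z : Set (Pool.Agent.H737R3.PP K n)) 1 ≠
      (0 : Pool.Agent.H737R3.PP K n → ℕ) := by
    obtain ⟨q, hq⟩ := hZ
    intro h
    have := congrFun h q
    rw [Set.indicator_of_mem (Finset.mem_coe.2 hq)] at this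
    exact one_ne_zero this
  have hfin : Pool.Agent.Y111.DM.multIdeal
      (Set.indicator (Z : Set (Pool.Agent.H737R3.PP K n)) 1) ≠ ⊥ := by
    refine Pool.Agent.Y111.DM.multIdeal_ne_bot_of_finite hn (Z.finite_toSet.subset ?_)
    intro p hp
    by_contra hcon
    exact hp (Set.indicator_of_notMem hcon _)
  set w : Pool.Agent.H737R3.PP K n → ℕ :=
    Set.indicator (Z : Set (Pool.Agent.H737R3.PP K n)) 1 with hw
  have h1 : Pool.Agent.Y111.DM.multIdeal (fun p => 1 * w p) ≠ ⊥ := by
    simpa only [one_mul] using hfin
  have hall : ∀ m, Pool.Agent.Y111.DM.multIdeal (fun p => m * w p) ≠ ⊥ := fun m =>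
    Pool.Agent.Y111.DM.multIdeal_ne_bot le_rfl h1 m
  obtain ⟨c, hc⟩ := Pool.Agent.Y111.DM.exists_limit' hall
  have hle := Pool.Agent.Y111.DM.limit_le hall hc
  have hid : ideal Z = symbolicPower Z 1 := by
    unfold ideal symbolicPower
    simp only [pow_one]
  have hal : ∀ J : Ideal (MvPolynomial (Fin (n + 1)) K), alpha J = Pool.Agent.H737R3.alpha J :=
    fun J => rfl
  refine ⟨c, ?_, ?_, ?_⟩
  · simp only [hsym, hal]
    exact hc
  · intro k hk
    rw [hsym, hal]
    exact hle k hk
  · refine ge_of_tendsto hc ?_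
    filter_upwards [eventually_ge_atTop 1] with r hr
    have h2 := Pool.Agent.H737R3.real_of_nat hn le_rfl hr
      (Pool.Agent.Y111.DM.demailly_all hn w hne 1 r le_rfl (hall r))
    rw [hid, hsym, hal]
    have h3 : ((1 : ℕ) : ℝ) + (n : ℝ) - 1 = n := by push_cast; ring
    rw [h3] at h2
    exact h2

end Pool.Agent.Results.MP_3eef69_ag.Chudnovsky
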